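import Pool.Agent.Y817.BC.Stm

/-!
# Project BC: computable solutions on the standard action (job BC-COMP)
-/

set_option autoImplicit false

namespace Pool.Agent.Y569.BC.Comp

open Pool.Agent.Y817.BC

/-- Codes of integers. -/
def enc : ℤ → ℕ
  | Int.ofNat n => 2 * n
  | Int.negSucc n => 2 * n + 1

/-- The integer of a code. -/
def dec (n : ℕ) : ℤ := if n % 2 = 0 then ((n / 2 : ℕ) : ℤ) else -((n / 2 : ℕ) : ℤ) - 1

theorem dec_enc (z : ℤ) : dec (enc z) = z := by
  cases z with
  | ofNat n => simp [enc, dec]
  | negSucc n =>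
    have h1 : (2 * n + 1) % 2 = 1 := by omega
    have h2 : (2 * n + 1) / 2 = n := by omega
    simp only [enc, dec, h1, h2]
    rw [Int.negSucc_eq]
    simp
    ring

theorem enc_dec (n : ℕ) : enc (dec n) = n := by
  unfold dec
  split_ifs with h
  · show enc (Int.ofNat (n / 2)) = n
    simp only [enc]
    omega
  · have : -((n / 2 : ℕ) : ℤ) - 1 = Int.negSucc (n / 2) := by
      rw [Int.negSucc_eq]; ring
    rw [this]
    simp only [enc]
    omega

theorem dec_inj {m n : ℕ} (h : dec m = dec n) : m = n := by
  rw [← enc_dec m, ← enc_dec n, h]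

/-- Successor on codes. -/
def sc (n : ℕ) : ℕ := if n % 2 = 0 then n + 2 else if n = 1 then 0 else n - 2

/-- Predecessor on codes. -/
def pc (n : ℕ) : ℕ := if n % 2 = 1 then n + 2 else if n = 0 then 1 else n - 2

theorem dec_even (m : ℕ) : dec (2 * m) = m := by
  have h1 : (2 * m) % 2 = 0 := by omega
  have h2 : (2 * m) / 2 = m := by omega
  unfold dec
  rw [if_pos h1, h2]

theorem dec_odd (m : ℕ) : dec (2 * m + 1) = -(m : ℤ) - 1 := by
  have h1 : ¬ (2 * m + 1) % 2 = 0 := by omega
  have h2 : (2 * m + 1) / 2 = m := by omega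
  unfold dec
  rw [if_neg h1, h2]

theorem even_or (n : ℕ) : (∃ m, n = 2 * m) ∨ ∃ m, n = 2 * m + 1 := by
  rcases Nat.even_or_odd' n with ⟨m, h | h⟩
  · exact Or.inl ⟨m, h⟩
  · exact Or.inr ⟨m, h⟩

theorem dec_sc (n : ℕ) : dec (sc n) = dec n + 1 := by
  rcases even_or n with ⟨m, rfl⟩ | ⟨m, rfl⟩
  · have h : sc (2 * m) = 2 * (m + 1) := by unfold sc; rw [if_pos (by omega)]; ring
    rw [h, dec_even, dec_even]
    push_cast
    ring
  · rcases m with _ | m
    · have h : sc (2 * 0 + 1) = 2 * 0 := rfl
      rw [h, dec_even, dec_odd]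
      simp
    · have h : sc (2 * (m + 1) + 1) = 2 * m + 1 := by
        unfold sc
        rw [if_neg (by omega), if_neg (by omega)]
        omega
      rw [h, dec_odd, dec_odd]
      push_cast
      ring

theorem dec_pc (n : ℕ) : dec (pc n) = dec n - 1 := by
  rcases even_or n with ⟨m, rfl⟩ | ⟨m, rfl⟩
  · rcases m with _ | m
    · have h : pc (2 * 0) = 2 * 0 + 1 := rfl
      rw [h, dec_even, dec_odd]
      simp
    · have h : pc (2 * (m + 1)) = 2 * m := by
        unfold pc
        rw [if_neg (by omega), if_neg (by omega)]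
        omega
      rw [h, dec_even, dec_even]
      push_cast
      ring
  · have h : pc (2 * m + 1) = 2 * (m + 1) + 1 := by unfold pc; rw [if_pos (by omega)]; ring
    rw [h, dec_odd, dec_odd]
    push_cast
    ring

theorem prim_mod2 : Primrec (fun n : ℕ => n % 2) :=
  Primrec.nat_mod.comp Primrec.id (Primrec.const 2)

theorem prim_div2 : Primrec (fun n : ℕ => n / 2) :=
  Primrec.nat_div.comp Primrec.id (Primrec.const 2)

theorem prim_sc : Primrec sc :=
  Primrec.ite (Primrec.eq.comp prim_mod2 (Primrec.const 0))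
    (Primrec.nat_add.comp Primrec.id (Primrec.const 2))
    (Primrec.ite (Primrec.eq.comp Primrec.id (Primrec.const 1)) (Primrec.const 0)
      (Primrec.nat_sub.comp Primrec.id (Primrec.const 2)))

theorem prim_pc : Primrec pc :=
  Primrec.ite (Primrec.eq.comp prim_mod2 (Primrec.const 1))
    (Primrec.nat_add.comp Primrec.id (Primrec.const 2))
    (Primrec.ite (Primrec.eq.comp Primrec.id (Primrec.const 0)) (Primrec.const 1)
      (Primrec.nat_sub.comp Primrec.id (Primrec.const 2)))

theorem dec_sc_iter (m n : ℕ) : dec (sc^[m] n) = dec n + m := by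
  induction m with
  | zero => simp
  | succ m ih => rw [Function.iterate_succ_apply', dec_sc, ih]; push_cast; ring

theorem dec_pc_iter (m n : ℕ) : dec (pc^[m] n) = dec n - m := by
  induction m with
  | zero => simp
  | succ m ih => rw [Function.iterate_succ_apply', dec_pc, ih]; push_cast; ring

/-- Addition on codes. -/
def zadd (m n : ℕ) : ℕ := if m % 2 = 0 then sc^[m / 2] n else pc^[m / 2 + 1] n

theorem dec_zadd (m n : ℕ) : dec (zadd m n) = dec m + dec n := by
  unfold zadd
  split_ifs with h
  · rw [dec_sc_iter]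
    have : dec m = ((m / 2 : ℕ) : ℤ) := by unfold dec; rw [if_pos h]
    rw [this]
    ring
  · rw [dec_pc_iter]
    have : dec m = -((m / 2 : ℕ) : ℤ) - 1 := by unfold dec; rw [if_neg h]
    rw [this]
    push_cast
    ring

theorem prim_zadd : Primrec₂ zadd := by
  have h1 : Primrec (fun p : ℕ × ℕ => sc^[p.1 / 2] p.2) :=
    Primrec.nat_iterate (prim_div2.comp Primrec.fst) Primrec.snd
      (prim_sc.comp Primrec.snd).to₂
  have h2 : Primrec (fun p : ℕ × ℕ => pc^[p.1 / 2 + 1] p.2) :=
    Primrec.nat_iterate (Primrec.succ.comp (prim_div2.comp Primrec.fst)) Primrec.snd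
      (prim_pc.comp Primrec.snd).to₂
  exact Primrec.ite (Primrec.eq.comp (prim_mod2.comp Primrec.fst) (Primrec.const 0)) h1 h2

/-- The action on codes. -/
def cact (a b c x : ℕ) : ℕ :=
  Nat.pair (zadd a x.unpair.1) (Nat.pair (zadd b x.unpair.2.unpair.1)
    (zadd c x.unpair.2.unpair.2))

/-- The action. -/
def act (g : G) (x : ℕ) : ℕ := cact (enc (g 0)) (enc (g 1)) (enc (g 2)) x

/-- The point of a code. -/
def pt (x : ℕ) : G := ![dec x.unpair.1, dec x.unpair.2.unpair.1, dec x.unpair.2.unpair.2]

theorem pt_inj {x y : ℕ} (h : pt x = pt y) : x = y := by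
  have h0 := dec_inj (congrFun h 0)
  have h1 := dec_inj (congrFun h 1)
  have h2 := dec_inj (congrFun h 2)
  rw [← Nat.pair_unpair x, ← Nat.pair_unpair y, h0]
  congr 1
  rw [← Nat.pair_unpair x.unpair.2, ← Nat.pair_unpair y.unpair.2, h1, h2]

theorem pt_act (g : G) (x : ℕ) : pt (act g x) = g + pt x := by
  funext i
  fin_cases i <;> simp [pt, act, cact, dec_zadd, dec_enc, Pi.add_apply]

theorem act_zero (x : ℕ) : act 0 x = x := pt_inj (by rw [pt_act, zero_add])

theorem act_add (a b : G) (x : ℕ) : act (a + b) x = act a (act b x) :=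
  pt_inj (by rw [pt_act, pt_act, pt_act, add_assoc])

theorem act_free (g : G) (x : ℕ) (h : act g x = x) : g = 0 := by
  have := pt_act g x
  rw [h] at this
  exact left_eq_add.mp (by rw [add_comm]; exact this)

theorem prim_cact {α : Type} [Primcodable α] {a b c x : α → ℕ} (ha : Primrec a)
    (hb : Primrec b) (hc : Primrec c) (hx : Primrec x) :
    Primrec (fun t => cact (a t) (b t) (c t) (x t)) := by
  have u1 : Primrec (fun t => (x t).unpair.1) := Primrec.fst.comp (Primrec.unpair.comp hx)
  have u2 : Primrec (fun t => (x t).unpair.2) := Primrec.snd.comp (Primrec.unpair.comp hx)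
  exact Primrec₂.natPair.comp (prim_zadd.comp ha u1)
    (Primrec₂.natPair.comp (prim_zadd.comp hb (Primrec.fst.comp (Primrec.unpair.comp u2)))
      (prim_zadd.comp hc (Primrec.snd.comp (Primrec.unpair.comp u2))))

theorem comp_act (g : G) : Computable (act g) :=
  (prim_cact (Primrec.const _) (Primrec.const _) (Primrec.const _) Primrec.id).to_comp

/-- Moving along a vector read from a finite label is computable. -/
theorem comp_step {k : ℕ} (v : Fin k → G) (f : ℕ → Fin k) (hf : Computable f) :
    Computable (fun x => act (v (f x)) x) := by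
  have h : Primrec (fun p : Fin k × ℕ => act (v p.1) p.2) := by
    unfold act
    exact prim_cact ((Primrec.dom_finite (fun j : Fin k => enc (v j 0))).comp Primrec.fst)
      ((Primrec.dom_finite (fun j : Fin k => enc (v j 1))).comp Primrec.fst)
      ((Primrec.dom_finite (fun j : Fin k => enc (v j 2))).comp Primrec.fst) Primrec.snd
  exact h.to_comp.comp (hf.pair Computable.id)

theorem comp_iter {s : ℕ → ℕ} (hs : Computable s) {α : Type} [Primcodable α] {n : α → ℕ}
    {w : α → ℕ} (hn : Computable n) (hw : Computable w) :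
    Computable (fun t => s^[n t] (w t)) := by
  have h := Computable.nat_rec (f := n) (g := w) (h := fun _ p => s p.2) hn hw
    ((hs.comp (Computable.snd.comp Computable.snd)).to₂)
  refine h.of_eq (fun t => ?_)
  generalize n t = m
  induction m with
  | zero => rfl
  | succ m ih => rw [Function.iterate_succ_apply']; exact congrArg s ih

theorem t : StmComp := by
  refine ⟨act, act_zero, act_add, comp_act, act_free, ?_⟩
  intro L _ rel k ε f hf hOK
  set lab : ℕ → Lab L := fun x => ε.symm (f x) with hlab
  set step : Fin 3 → ℕ → ℕ := fun i x => act (toG ((lab x).1 i)) x with hstep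
  have hcomm : ∀ i j x, step i (step j x) = step j (step i x) := by
    intro i j x
    have h := (hOK x).1 i j
    simp only [act_zero] at h
    show act (toG ((lab (act (toG ((lab x).1 j)) x)).1 i)) (act (toG ((lab x).1 j)) x) =
      act (toG ((lab (act (toG ((lab x).1 i)) x)).1 j)) (act (toG ((lab x).1 i)) x)
    rw [← act_add, ← act_add]
    congr 1
    rw [add_comm, add_comm (toG ((lab (act (toG ((lab x).1 i)) x)).1 j))]
    exact h.symm
  have hrel : ∀ i x, rel i (lab x).2 (lab (step i x)).2 := by
    intro i x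
    have h := (hOK x).2 i
    simp only [act_zero] at h
    exact h
  have hC : ∀ i j, Function.Commute (step i) (step j) := fun i j x => hcomm i j x
  have hcs : ∀ i, Computable (step i) := fun i =>
    comp_step (fun j : Fin k => toG ((ε.symm j).1 i)) f hf
  refine ⟨fun x y z => (lab ((step 0)^[x] ((step 1)^[y] ((step 2)^[z] 0)))).2, ?_, ?_⟩
  · intro x y z
    refine ⟨?_, ?_, ?_⟩
    · show rel 0 _ (lab ((step 0)^[x + 1] ((step 1)^[y] ((step 2)^[z] 0)))).2
      rw [Function.iterate_succ_apply']
      exact hrel 0 _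
    · have e1 : (step 0)^[x] ((step 1)^[y + 1] ((step 2)^[z] 0)) =
          step 1 ((step 0)^[x] ((step 1)^[y] ((step 2)^[z] 0))) := by
        rw [Function.iterate_succ_apply']
        exact ((hC 0 1).iterate_left x) _
      show rel 1 _ (lab ((step 0)^[x] ((step 1)^[y + 1] ((step 2)^[z] 0)))).2
      rw [e1]
      exact hrel 1 _
    · have e2 : (step 0)^[x] ((step 1)^[y] ((step 2)^[z + 1] 0)) =
          step 2 ((step 0)^[x] ((step 1)^[y] ((step 2)^[z] 0))) := by
        rw [Function.iterate_succ_apply', ((hC 1 2).iterate_left y) _]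
        exact ((hC 0 2).iterate_left x) _
      show rel 2 _ (lab ((step 0)^[x] ((step 1)^[y] ((step 2)^[z + 1] 0)))).2
      rw [e2]
      exact hrel 2 _
  · intro φ
    have hpt : Computable (fun p : ℕ × ℕ × ℕ =>
        (step 0)^[p.1] ((step 1)^[p.2.1] ((step 2)^[p.2.2] 0))) :=
      comp_iter (hcs 0) Computable.fst
        (comp_iter (hcs 1) (Computable.fst.comp Computable.snd)
          (comp_iter (hcs 2) (Computable.snd.comp Computable.snd) (Computable.const 0)))
    exact (Primrec.dom_finite (fun j : Fin k => φ (ε.symm j).2)).to_comp.comp (hf.comp hpt)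

end Pool.Agent.Y569.BC.Comp
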